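import Pool.Agent.H56.HB.Targets
import Pool.Agent.H8.BS.BP
import Pool.Agent.H76.BS.TUP
import Pool.Agent.H20.ENM.QMS

/-!
# Theorem (H0), MP_c59857_nt, part (c), row BAD: the primes with a bad lift
-/

set_option autoImplicit false

namespace Pool.Agent.H87.HB

open Finset Pool.Agent.H93 Pool.Agent.H6.N4D Pool.Agent.H21.BS Pool.Agent.H56.HB
open Pool.Agent.H3.BT (NCt kq)

/-- the constants -/
lemma bad_const (w r : ℕ) (C : ℝ) (hr : 4 * C ≤ 2 ^ r) (hw : 4800 * r ≤ w) :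
    2 * (C / 2 ^ w) ≤ 1 / (2 * kq w * ((4 ^ (w / 2) : ℕ) : ℝ)) := by
  have hκ : 0 < kq w := by unfold kq; positivity
  have hN : (0 : ℝ) < ((4 ^ (w / 2) : ℕ) : ℝ) := by positivity
  have hNw : ((4 ^ (w / 2) : ℕ) : ℝ) ≤ 2 ^ w := by
    have h1 : 4 ^ (w / 2) ≤ 2 ^ w := by
      calc 4 ^ (w / 2) = 2 ^ (2 * (w / 2)) := by rw [pow_mul]; norm_num
        _ ≤ 2 ^ w := Nat.pow_le_pow_right (by norm_num) (by omega)
    exact_mod_cast h1
  have hCκ : 4 * C * kq w ≤ 1 := by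
    have h1 : (2 : ℝ) ^ r ≤ 2 ^ (w / 4800) :=
      pow_le_pow_right₀ (by norm_num) (by omega)
    have h2 : (2 : ℝ) ^ (w / 4800) * kq w = 1 := by
      unfold kq
      rw [← mul_pow]
      norm_num
    calc 4 * C * kq w ≤ 2 ^ (w / 4800) * kq w :=
          mul_le_mul_of_nonneg_right (hr.trans h1) hκ.le
      _ = 1 := h2
  rw [le_div_iff₀ (by positivity)]
  have h3 : 2 * (C / 2 ^ w) * (2 * kq w * ((4 ^ (w / 2) : ℕ) : ℝ)) =
      4 * C * kq w * (((4 ^ (w / 2) : ℕ) : ℝ) / 2 ^ w) := by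
    field_simp
    ring
  rw [h3]
  have h4 : ((4 ^ (w / 2) : ℕ) : ℝ) / 2 ^ w ≤ 1 := by
    rw [div_le_one (by positivity)]
    exact hNw
  have h5 : 0 ≤ ((4 ^ (w / 2) : ℕ) : ℝ) / 2 ^ w := by positivity
  calc 4 * C * kq w * (((4 ^ (w / 2) : ℕ) : ℝ) / 2 ^ w)
      ≤ 1 * (((4 ^ (w / 2) : ℕ) : ℝ) / 2 ^ w) := mul_le_mul_of_nonneg_right hCκ h5
    _ ≤ 1 := by rw [one_mul]; exact h4

open Classical in
/-- two primes with a bad lift form a bad pair -/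
lemma bad_pair (w r : ℕ) (C S : ℝ) (α : ℕ → ℝ) (hr : 4 * C ≤ 2 ^ r) (hw : 4800 * r ≤ w)
    (q p : ℕ) (hqp : q ≠ p)
    (h1 : ∃ b : ℤ, ¬ ((q : ℤ) ∣ b) ∧ nd (α q - S - (b : ℝ) / q) ≤ C / 2 ^ w)
    (h2 : ∃ b : ℤ, ¬ ((p : ℤ) ∣ b) ∧ nd (α p - S - (b : ℝ) / p) ≤ C / 2 ^ w) :
    Bad2 (4 ^ (w / 2)) (kq w) α q p := by
  obtain ⟨b, hb, h3⟩ := h1
  obtain ⟨c, hc, h4⟩ := h2
  refine ⟨hqp, b, -c, hb, by simpa using hc, ?_⟩
  have h5 : α q - α p - (b : ℝ) / q - ((-c : ℤ) : ℝ) / p =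
      (α q - S - (b : ℝ) / q) - (α p - S - (c : ℝ) / p) := by
    push_cast
    ring
  rw [h5]
  refine (nd_sub_le _ _).trans (le_trans ?_ (bad_const w r C hr hw))
  linarith

open Classical in
/-- the bad pairs of a set of primes -/
lemma bad_mass (N P : ℕ) (κ : ℝ) (Q : Finset ℕ) (α : ℕ → ℝ) (B : ℕ → Prop) (hP : 1 ≤ P)
    (hQ : ∀ q ∈ Q, P ≤ q) (hW : ∑ q ∈ Q, 1 / (q : ℝ) ≤ 3)
    (hB : ∀ q ∈ Q, ∀ p ∈ Q, B q → B p → q ≠ p → Bad2 N κ α q p) :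
    (∑ q ∈ Q.filter B, 1 / (q : ℝ)) ^ 2 - 3 / P ≤ badmass2 N κ Q α := by
  have hPr : (0 : ℝ) < P := by exact_mod_cast (by omega : 0 < P)
  set T := Q.filter B with hT
  have hTQ : T ⊆ Q := filter_subset _ _
  have h1 : ∑ q ∈ T, ∑ p ∈ T, (1 / (q : ℝ) * (1 / p) -
      if q = p then 1 / (q : ℝ) * (1 / p) else 0) ≤ badmass2 N κ Q α := by
    unfold badmass2
    calc ∑ q ∈ T, ∑ p ∈ T, (1 / (q : ℝ) * (1 / p) -
        if q = p then 1 / (q : ℝ) * (1 / p) else 0)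
        ≤ ∑ q ∈ T, ∑ p ∈ T, (if Bad2 N κ α q p then 1 / (q : ℝ) * (1 / p) else 0) := by
          apply sum_le_sum
          intro q hq
          apply sum_le_sum
          intro p hp
          by_cases hqp : q = p
          · rw [if_pos hqp, sub_self]
            split_ifs
            · positivity
            · exact le_rfl
          · rw [if_neg hqp, sub_zero, if_pos]
            rw [hT, mem_filter] at hq hp
            exact hB q hq.1 p hp.1 hq.2 hp.2 hqp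
      _ ≤ ∑ q ∈ T, ∑ p ∈ Q, (if Bad2 N κ α q p then 1 / (q : ℝ) * (1 / p) else 0) := by
          apply sum_le_sum
          intro q _
          apply sum_le_sum_of_subset_of_nonneg hTQ
          intro p _ _
          split_ifs
          · positivity
          · exact le_rfl
      _ ≤ ∑ q ∈ Q, ∑ p ∈ Q, (if Bad2 N κ α q p then 1 / (q : ℝ) * (1 / p) else 0) := by
          apply sum_le_sum_of_subset_of_nonneg hTQ
          intro q _ _
          apply sum_nonneg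
          intro p _
          split_ifs
          · positivity
          · exact le_rfl
  have h2 : ∑ q ∈ T, ∑ p ∈ T, (1 / (q : ℝ) * (1 / p) -
      if q = p then 1 / (q : ℝ) * (1 / p) else 0) =
      (∑ q ∈ T, 1 / (q : ℝ)) ^ 2 - ∑ q ∈ T, 1 / (q : ℝ) * (1 / q) := by
    simp only [sum_sub_distrib]
    congr 1
    · rw [sq, sum_mul_sum]
    · apply sum_congr rfl
      intro q hq
      rw [sum_ite_eq, if_pos hq]
  have h3 : ∑ q ∈ T, 1 / (q : ℝ) * (1 / q) ≤ 3 / P := by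
    calc ∑ q ∈ T, 1 / (q : ℝ) * (1 / q) ≤ ∑ q ∈ Q, 1 / (q : ℝ) * (1 / q) :=
          sum_le_sum_of_subset_of_nonneg hTQ fun q _ _ => by positivity
      _ ≤ ∑ q ∈ Q, 1 / (q : ℝ) * (1 / P) := by
          apply sum_le_sum
          intro q hq
          apply mul_le_mul_of_nonneg_left _ (by positivity)
          apply one_div_le_one_div_of_le hPr
          exact_mod_cast hQ q hq
      _ = (∑ q ∈ Q, 1 / (q : ℝ)) * (1 / P) := by rw [sum_mul]
      _ ≤ 3 * (1 / P) := mul_le_mul_of_nonneg_right hW (by positivity)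
      _ = 3 / P := by ring
  rw [h2] at h1
  linarith

/-- BAD. The primes with a bad lift near a fixed frequency. -/
theorem pf_BAD : T_BAD := by
  classical
  intro C
  obtain ⟨m₀, hm₀⟩ := Pool.Agent.H20.ENM.pf_QMS
  obtain ⟨r, hr⟩ := pow_unbounded_of_one_lt (4 * C) (one_lt_two (α := ℝ))
  refine ⟨max m₀ (max 2000000 (4800 * r)), ?_⟩
  intro w α S hw hα
  have hw1 : m₀ ≤ w := (le_max_left _ _).trans hw
  have hw2 : 2000000 ≤ w := ((le_max_left _ _).trans (le_max_right _ _)).trans hw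
  have hw3 : 4800 * r ≤ w := ((le_max_right _ _).trans (le_max_right _ _)).trans hw
  have hμ3 := (hm₀ w hw1).2
  obtain ⟨B, hB⟩ : ∃ B : ℕ → Prop, B = fun q : ℕ => ∃ b : ℤ, ¬ ((q : ℤ) ∣ b) ∧
    nd (α q - S - (b : ℝ) / q) ≤ C / 2 ^ w := ⟨_, rfl⟩
  have hμ : ∑ q ∈ EB.QQ w, 1 / (q : ℝ) * EB.ind (∃ b : ℤ, ¬ ((q : ℤ) ∣ b) ∧
      nd (α q - S - (b : ℝ) / q) ≤ C / 2 ^ w) = ∑ q ∈ (EB.QQ w).filter B, 1 / (q : ℝ) := by
    rw [sum_filter, hB]
    apply sum_congr rfl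
    intro q _
    unfold EB.ind
    split_ifs <;> simp
  rw [hμ]
  have hQ : ∀ q ∈ EB.QQ w, 2 ^ (w / 400) ≤ q := by
    intro q hq
    unfold EB.QQ at hq
    rw [mem_filter, mem_Ioc] at hq
    exact hq.1.1.le
  have hP1 : 1 ≤ 2 ^ (w / 400) := Nat.one_le_two_pow
  have h1 := bad_mass (4 ^ (w / 2)) (2 ^ (w / 400)) (kq w) (EB.QQ w) α B hP1 hQ hμ3
    (fun q _ p _ hq hp hqp => bad_pair w r C S α hr.le hw3 q p hqp (by rw [hB] at hq; exact hq)
      (by rw [hB] at hp; exact hp))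
  have hκ : 0 < kq w := by unfold kq; positivity
  have h2 := Pool.Agent.H8.BS.pf_BP Pool.Agent.H76.BS.pf_TUP (4 ^ (w / 2)) (2 ^ (w / 400)) (kq w) 3
    (EB.QQ w) α hκ (by positivity) hQ hP1 hμ3
  have h3 : badmass (4 ^ (w / 2)) (kq w) (EB.QQ w) α ≤ kq w := hα
  by_contra hcon
  push Not at hcon
  generalize (∑ q ∈ (EB.QQ w).filter B, 1 / (q : ℝ)) = μ at h1 hcon
  generalize badmass2 (4 ^ (w / 2)) (kq w) (EB.QQ w) α = M at h1 h2
  obtain ⟨y, hy⟩ : ∃ y : ℝ, y = (1 / 2) ^ (w / 20000) := ⟨_, rfl⟩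
  rw [← hy] at hcon
  have hy0 : 0 < y := by rw [hy]; positivity
  -- powers of y
  have hy4 : 1024 * kq w ≤ y ^ 4 := by
    unfold kq
    rw [hy, ← pow_mul]
    have h4 : (1 / 2 : ℝ) ^ (w / 4800) ≤ (1 / 2) ^ (w / 20000 * 4 + 10) :=
      pow_le_pow_of_le_one (by norm_num) (by norm_num) (by omega)
    rw [pow_add] at h4
    norm_num at h4 ⊢
    linarith
  have hPκ : 1 / ((2 ^ (w / 400) : ℕ) : ℝ) ≤ kq w := by
    unfold kq
    have h4 : (1 / 2 : ℝ) ^ (w / 400) ≤ (1 / 2) ^ (w / 4800) :=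
      pow_le_pow_of_le_one (by norm_num) (by norm_num) (by omega)
    push_cast
    rw [one_div, ← inv_pow, ← one_div]
    exact h4
  have hPy : 3 / ((2 ^ (w / 400) : ℕ) : ℝ) ≤ y ^ 2 / 2 := by
    have h4 : 3 / ((2 ^ (w / 400) : ℕ) : ℝ) ≤ 3 * kq w := by
      rw [← mul_one_div]
      linarith
    have h5 : y ^ 4 ≤ y ^ 2 := by
      have h6 : y ≤ 1 := by rw [hy]; exact pow_le_one₀ (by norm_num) (by norm_num)
      exact pow_le_pow_of_le_one hy0.le h6 (by norm_num)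
    linarith
  have h4 : y ^ 2 ≤ μ ^ 2 := pow_le_pow_left₀ hy0.le hcon.le 2
  have h5 : y ^ 2 / 2 ≤ M := by linarith
  have h6 : (y ^ 2 / 2) ^ 2 ≤ M ^ 2 := pow_le_pow_left₀ (by positivity) h5 2
  have h7 : (y ^ 2 / 2) ^ 2 = y ^ 4 / 4 := by ring
  have h8 : 6 * (3 : ℝ) ^ 3 / ((2 ^ (w / 400) : ℕ) : ℝ) ≤ 162 * kq w := by
    have e : 6 * (3 : ℝ) ^ 3 / ((2 ^ (w / 400) : ℕ) : ℝ) =
        162 * (1 / ((2 ^ (w / 400) : ℕ) : ℝ)) := by ring
    rw [e]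
    exact mul_le_mul_of_nonneg_left hPκ (by norm_num)
  rw [h7] at h6
  linarith

end Pool.Agent.H87.HB
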